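import Pool.Agent.TH195.SP.Dense

/-!
A strong universal pattern generator: a reversible one-dimensional cellular automaton of radius 1
and a finite configuration whose orbit is dense.

Construction: brickwork automaton with a gate `U`, a permutation of `A x A`.  A machine (counter
between two end marks, moved one site to the left by every pass of its signal) sends the digits of
its number to a wall; three digits make one new symbol which is inserted on the right of the wall,
the wall moving one site to the left.  After each data pass a shrinking pass moves the wall back to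
its base (swallowed symbols leave as garbage travelling to the left); at every overflow of the
counter the base moves one site to the right and six digits are added.  As the gate is invertible
and two symbols `kap i` absorb every influence going to the right (backwards in time), every
pattern on the right of the wall can be produced by a suitable sequence of insertions, whatever was
there before.
-/

set_option autoImplicit false

namespace Pool.Agent.Results.MP_903cf7_lc.StrongUniversal

open Pool.Agent.TH195.SP

/-- `F` is a one-dimensional cellular automaton: a local rule `f` of some radius `r` -/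
def IsCellularAutomaton {S : Type} (F : (ℤ → S) → (ℤ → S)) : Prop :=
  ∃ (r : ℕ) (f : (Fin (2 * r + 1) → S) → S),
    ∀ (x : ℤ → S) (i : ℤ), F x i = f (fun k => x (i - r + (k : ℕ)))

/-- only finitely many cells of `x` differ from the distinguished state -/
def IsFiniteConfig {S : Type} (zero : S) (x : ℤ → S) : Prop := {i : ℤ | x i ≠ zero}.Finite

/-- the word `w` appears at position `i` in `y` -/
def AppearsAt {S : Type} (w : List S) (i : ℤ) (y : ℤ → S) : Prop :=
  ∀ (j : ℕ) (h : j < w.length), y (i + j) = w[j]

/-- every word appears at every position in some iterate -/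
def IsStrongGenerator {S : Type} (F : (ℤ → S) → (ℤ → S)) (x : ℤ → S) : Prop :=
  ∀ (w : List S) (i : ℤ), ∃ n : ℕ, AppearsAt w i (F^[n] x)

/-- There are a finite state set with at least two states and a distinguished quiescent state, a
reversible cellular automaton and a finite configuration which form a strong universal pattern
generator. -/
theorem result : ∃ (S : Type) (zero : S) (F : (ℤ → S) → (ℤ → S)) (x : ℤ → S),
    Finite S ∧ Nontrivial S ∧ IsCellularAutomaton F ∧ F (fun _ => zero) = (fun _ => zero) ∧
      Function.Bijective F ∧ IsFiniteConfig zero x ∧ IsStrongGenerator F x := by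
  obtain ⟨enc, U, hU⟩ := exists_gate
  refine ⟨AA × AA, (p0 enc, v0 enc), FF U, XX (c0 enc), inferInstance, inferInstance, ?_,
    FF_zero hU, FF_bij U, finite_c0 enc, ?_⟩
  · refine ⟨1, fun v => ((U ((U (v 0)).2, (U (v 1)).1)).2, (U ((U (v 1)).2, (U (v 2)).1)).1),
      fun x i => ?_⟩
    simp only [FF, sig, gm, tau]
    have e0 : i - ((1 : ℕ) : ℤ) + (((0 : Fin (2 * 1 + 1)) : ℕ) : ℤ) = i - 1 := by simp
    have e1 : i - ((1 : ℕ) : ℤ) + (((1 : Fin (2 * 1 + 1)) : ℕ) : ℤ) = i := by simp
    have e2 : i - ((1 : ℕ) : ℤ) + (((2 : Fin (2 * 1 + 1)) : ℕ) : ℤ) = i + 1 := by
      have : ((2 : Fin (2 * 1 + 1)) : ℕ) = 2 := rfl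
      rw [this]; push_cast; ring
    rw [e0, e1, e2, show i + 1 - 1 = i by ring]
  · intro w i
    obtain ⟨n, hn⟩ := dense hU
      (fun j => if h : (j - i).toNat < w.length then w[(j - i).toNat] else (p0 enc, v0 enc))
      (i.natAbs + w.length)
    refine ⟨n, fun j hj => ?_⟩
    rw [hn (i + j) (by omega) (by omega)]
    have e : (i + (j : ℤ) - i).toNat = j := by simp
    simp only [e, hj, dif_pos]

end Pool.Agent.Results.MP_903cf7_lc.StrongUniversal
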